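import Pool.Agent.H39Z.SSS.Final

/-!
# Trace-minimising arithmetic measures have logarithmic energy zero
-/

namespace Pool.Agent.Results.MP_1ddd1c_nt.AEnergyZero

open MeasureTheory Pool.Agent.H39Z.SSS

/-- An arithmetic probability measure with compact support in `[0, ∞)` whose mean is the
Schur-Siegel-Smyth constant has logarithmic energy `0`. -/
theorem result (μ : Measure ℝ) [IsProbabilityMeasure μ] (hc : IsCompact μ.support)
    (hs : μ.support ⊆ Set.Ici 0) (ha : IsArith μ) (hm : ((∫ x, x ∂μ : ℝ) : EReal) = lamSSS) :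
    energy μ = 0 :=
  energy_zero μ ⟨inferInstance, hc, hs, ha, hm⟩

end Pool.Agent.Results.MP_1ddd1c_nt.AEnergyZero
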